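import Mathlib
import Pool.Agent.Results.MP_42f98c_gt.AllMetrizableGroups

set_option autoImplicit false
set_option linter.unusedSectionVars false

/-! Actions of arbitrary compact groups on products of compact metrizable spaces without invariant
dense Sigma-subsets.  Adaptation of the starting file `AllMetrizableGroups` to a group with a
separating family of homomorphisms into compact metrizable groups. -/

namespace Pool.Agent.Y559.VG

open Set Topology
open Pool.Agent.Results.MP_42f98c_gt.AllMetrizableGroups (key Om W J viol continuous_viol)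

/-- The compact space: a Cantor cube times a product of groups. -/
def KH {I : Type} (H : I → Type) : Type := (W → Bool) × (∀ p : J × I, H p.2)

section

variable {G : Type} [Group G] [TopologicalSpace G]
variable {I : Type} {H : I → Type} [∀ i, Group (H i)] [∀ i, TopologicalSpace (H i)]
  [∀ i, IsTopologicalGroup (H i)] [∀ i, CompactSpace (H i)] [∀ i, T2Space (H i)]

instance : TopologicalSpace (KH H) :=
  inferInstanceAs (TopologicalSpace ((W → Bool) × (∀ p : J × I, H p.2)))
instance : CompactSpace (KH H) :=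
  inferInstanceAs (CompactSpace ((W → Bool) × (∀ p : J × I, H p.2)))
instance : T2Space (KH H) :=
  inferInstanceAs (T2Space ((W → Bool) × (∀ p : J × I, H p.2)))

variable (ρ : ∀ i, G →* H i)

/-- The action: `g` multiplies the coordinate `(j, i)` by `ρ i g` exactly when the `j`-th condition
fails. -/
noncomputable def sm (g : G) (k : KH H) : KH H :=
  (k.1, fun p => if viol k.1 p.1 = true then ρ p.2 g * k.2 p else k.2 p)

theorem sm_one (k : KH H) : sm ρ 1 k = k := by
  refine Prod.ext rfl ?_
  funext p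
  show (if viol k.1 p.1 = true then ρ p.2 1 * k.2 p else k.2 p) = k.2 p
  split_ifs <;> simp

theorem sm_mul (g h : G) (k : KH H) : sm ρ (g * h) k = sm ρ g (sm ρ h k) := by
  refine Prod.ext rfl ?_
  funext p
  show (if viol k.1 p.1 = true then ρ p.2 (g * h) * k.2 p else k.2 p) =
    (if viol k.1 p.1 = true then ρ p.2 g * (if viol k.1 p.1 = true then ρ p.2 h * k.2 p else k.2 p)
      else (if viol k.1 p.1 = true then ρ p.2 h * k.2 p else k.2 p))
  split_ifs <;> simp [mul_assoc]

/-- The action as an instance. -/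
noncomputable def action : MulAction G (KH H) where
  smul g k := sm ρ g k
  one_smul k := sm_one ρ k
  mul_smul g h k := sm_mul ρ g h k

theorem continuous_sm2 (hρ : ∀ i, Continuous (ρ i)) :
    Continuous fun p : G × KH H => sm ρ p.1 p.2 := by
  have h0 : Continuous fun p : G × KH H => p.2.1 := continuous_fst.comp continuous_snd
  have h1 : ∀ q : J × I, Continuous fun p : G × KH H => p.2.2 q := fun q =>
    (continuous_apply q).comp (continuous_snd.comp continuous_snd)
  refine Continuous.prodMk h0 (continuous_pi fun q => ?_)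
  have hv : Continuous fun p : G × KH H => viol p.2.1 q.1 :=
    (continuous_apply q.1).comp (continuous_viol.comp h0)
  have hcl : IsClopen {p : G × KH H | viol p.2.1 q.1 = true} :=
    (isClopen_discrete ({true} : Set Bool)).preimage hv
  refine Continuous.if ?_ (((hρ q.2).comp continuous_fst).mul (h1 q)) (h1 q)
  intro a ha
  rw [hcl.frontier_eq] at ha
  exact absurd ha (notMem_empty a)

theorem continuous_sm (hρ : ∀ i, Continuous (ρ i)) (g : G) :
    Continuous fun k : KH H => sm ρ g k :=
  (continuous_sm2 ρ hρ).comp (continuous_const.prodMk continuous_id)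

theorem sm_eq_iff (hsep : ∀ g, g ≠ 1 → ∃ i, ρ i g ≠ 1) (g : G) (hg : g ≠ 1) (k : KH H) :
    sm ρ g k = k ↔ ∀ j, viol k.1 j = false := by
  constructor
  · intro h j
    by_contra hne
    have ht : viol k.1 j = true := by simpa using hne
    obtain ⟨i, hi⟩ := hsep g hg
    have h2 : (sm ρ g k).2 (j, i) = k.2 (j, i) := by rw [h]
    have h3 : (if viol k.1 j = true then ρ i g * k.2 (j, i) else k.2 (j, i)) = k.2 (j, i) := h2
    rw [if_pos ht] at h3
    exact hi (mul_eq_right.1 h3)
  · intro h
    refine Prod.ext rfl ?_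
    funext p
    show (if viol k.1 p.1 = true then ρ p.2 g * k.2 p else k.2 p) = k.2 p
    rw [h p.1]
    simp

theorem dense_prod {V : Type} (M : V → Type) [∀ v, TopologicalSpace (M v)] (o : ∀ v, M v) :
    Dense {x : ∀ v, M v | {v | x v ≠ o v}.Countable} := by
  classical
  intro x
  rw [mem_closure_iff_nhds]
  intro t ht
  rw [nhds_pi, Filter.mem_pi'] at ht
  obtain ⟨F, u, hu, hsub⟩ := ht
  refine ⟨fun v => if v ∈ F then x v else o v, hsub ?_, ?_⟩
  · intro v hv
    have hv' : v ∈ F := hv
    simp only [hv', if_true]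
    exact mem_of_mem_nhds (hu v)
  · refine (F.finite_toSet.subset ?_).countable
    intro v hv
    by_contra hne
    exact hv (if_neg hne)

/-- The embedding of the space into a power of the line. -/
noncomputable def emb (ψ : ∀ i, H i → ℕ → ℝ) (k : KH H) : W ⊕ ((J × I) × ℕ) → ℝ
  | Sum.inl w => if k.1 w = true then 1 else 0
  | Sum.inr p => ψ p.1.2 (k.2 p.1) p.2 - ψ p.1.2 1 p.2

theorem emb_embedding (ψ : ∀ i, H i → ℕ → ℝ) (hψ : ∀ i, Continuous (ψ i))
    (hinj : ∀ i, Function.Injective (ψ i)) : IsEmbedding (emb ψ) := by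
  have hB : Continuous fun b : Bool => (if b = true then (1 : ℝ) else 0) :=
    continuous_of_discreteTopology
  have hc : Continuous (emb ψ) := by
    refine continuous_pi fun i => ?_
    rcases i with w | ⟨j, n⟩
    · have h1 : Continuous fun k : KH H => k.1 w := (continuous_apply w).comp continuous_fst
      exact hB.comp h1
    · have h1 : Continuous fun k : KH H => k.2 j := (continuous_apply j).comp continuous_snd
      have h2 : Continuous fun k : KH H => ψ j.2 (k.2 j) n :=
        (continuous_apply n).comp ((hψ j.2).comp h1)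
      exact h2.sub continuous_const
  have hi : Function.Injective (emb ψ) := by
    intro k k' h
    refine Prod.ext ?_ ?_
    · funext w
      have := congrFun h (Sum.inl w)
      simp only [emb] at this
      revert this
      cases k.1 w <;> cases k'.1 w <;> simp
    · funext j
      refine hinj j.2 ?_
      funext n
      have := congrFun h (Sum.inr (j, n))
      simp only [emb] at this
      linarith
  exact (hc.isClosedEmbedding hi).isEmbedding

theorem emb_dense (ψ : ∀ i, H i → ℕ → ℝ) :
    Dense (emb ψ ⁻¹' {x : W ⊕ ((J × I) × ℕ) → ℝ | {γ | x γ ≠ 0}.Countable}) := by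
  refine ((dense_prod (fun _ : W => Bool) (fun _ => false)).prod
    (dense_prod (fun p : J × I => H p.2) (fun _ => 1))).mono ?_
  rintro ⟨x, y⟩ ⟨hx, hy⟩
  show {γ | emb ψ (x, y) γ ≠ 0}.Countable
  have hy' : ({j | y j ≠ 1} ×ˢ (univ : Set ℕ)).Countable := Countable.prod hy countable_univ
  refine ((hx.image Sum.inl).union (hy'.image Sum.inr)).mono ?_
  rintro (w | ⟨j, n⟩) h
  · refine Or.inl ⟨w, ?_, rfl⟩
    intro hf
    have hf' : x w = false := hf
    apply h
    simp [emb, hf']
  · refine Or.inr ⟨(j, n), ⟨?_, mem_univ _⟩, rfl⟩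
    intro hf
    have hf' : y j = 1 := hf
    apply h
    simp [emb, hf']

theorem no_invariant (hρ : ∀ i, Continuous (ρ i)) (hsep : ∀ g, g ≠ 1 → ∃ i, ρ i g ≠ 1)
    (g : G) (hg : g ≠ 1) (A : Set (KH H)) (hA : Dense A)
    (hinv : ∀ x ∈ A, sm ρ g x ∈ A)
    (Γ : Type) (φ : KH H → (Γ → ℝ)) (hφ : IsEmbedding φ)
    (hAφ : A = φ ⁻¹' {x : Γ → ℝ | {γ : Γ | x γ ≠ 0}.Countable}) : False := by
  classical
  have hsm : Continuous fun k : KH H => sm ρ g k :=
    continuous_sm ρ hρ g
  have hcnt : ∀ a ∈ A, {γ | φ a γ ≠ 0}.Countable := by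
    intro a ha
    rw [hAφ] at ha
    exact ha
  have hcnt' : ∀ a, {γ | φ a γ ≠ 0}.Countable → a ∈ A := by
    intro a ha
    rw [hAφ]
    exact ha
  -- points of A fixed by the action are dense in the fixed set
  have hfix : ∀ l : KH H, sm ρ g l = l → ∀ U : Set (KH H), IsOpen U → l ∈ U →
      ∃ a ∈ A, sm ρ g a = a ∧ a ∈ U := by
    intro l hl U hU hlU
    obtain ⟨V, hVo, hlV, hVU⟩ : ∃ V : Set (KH H), IsOpen V ∧ l ∈ V ∧ closure V ⊆ U := by
      obtain ⟨V, hV1, hV2, hV3⟩ := exists_mem_nhds_isClosed_subset (hU.mem_nhds hlU)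
      refine ⟨interior V, isOpen_interior, mem_interior_iff_mem_nhds.2 hV1, ?_⟩
      exact (closure_minimal interior_subset hV2).trans hV3
    let D : Set (KH H × KH H) := {d | d.1 ∈ A ∧ d.1 ∈ V ∧ d.2 = sm ρ g d.1}
    have hlD : (l, l) ∈ closure D := by
      rw [mem_closure_iff]
      intro O hO hlO
      have hc : Continuous fun k : KH H => (k, sm ρ g k) := continuous_id.prodMk hsm
      have h1 : IsOpen ((fun k : KH H => (k, sm ρ g k)) ⁻¹' O ∩ V) := (hO.preimage hc).inter hVo
      have h2 : l ∈ (fun k : KH H => (k, sm ρ g k)) ⁻¹' O ∩ V := by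
        refine ⟨?_, hlV⟩
        show (l, sm ρ g l) ∈ O
        rw [hl]
        exact hlO
      obtain ⟨a, ha1, ha2⟩ := hA.inter_open_nonempty _ h1 ⟨l, h2⟩
      exact ⟨(a, sm ρ g a), ha1.1, ha2, ha1.2, rfl⟩
    obtain ⟨c, hc, D', hD'D, _, hcD'⟩ := key φ hφ D
      (fun d hd => ⟨hcnt _ hd.1, by
        have h2 := hd.2.2
        rw [h2]
        exact hcnt _ (hinv _ hd.1)⟩) l hlD
    have hcD : (c, c) ∈ closure D := closure_mono hD'D hcD'
    refine ⟨c, hcnt' c hc, ?_, ?_⟩
    · have hcl : IsClosed {d : KH H × KH H | d.2 = sm ρ g d.1} :=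
        isClosed_eq continuous_snd (hsm.comp continuous_fst)
      have : closure D ⊆ {d : KH H × KH H | d.2 = sm ρ g d.1} :=
        closure_minimal (fun d hd => hd.2.2) hcl
      exact (this hcD).symm
    · have hcl : IsClosed {d : KH H × KH H | d.1 ∈ closure V} :=
        isClosed_closure.preimage continuous_fst
      have : closure D ⊆ {d : KH H × KH H | d.1 ∈ closure V} :=
        closure_minimal (fun d hd => subset_closure hd.2.1) hcl
      exact hVU (this hcD)
  -- the two one-sided sets
  let B1 : Set (KH H) := {a | a ∈ A ∧ sm ρ g a = a ∧ ∃ s : Om, a.1 (Sum.inl s) = false}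
  let B2 : Set (KH H) := {a | a ∈ A ∧ sm ρ g a = a ∧ ∃ s : Om, a.1 (Sum.inr s) = false}
  let l0 : KH H := (fun _ => true, fun _ => 1)
  -- no countable set of reals is everything
  have hnotall : ∀ b : Om, ∃ s : Om, ¬ s ≤ b := by
    intro b
    obtain ⟨r, hr⟩ : ∃ r : ℝ, r ∉ b.1 := by
      by_contra hall
      refine Cardinal.not_countable_real ((b.2).mono fun r _ => ?_)
      by_contra hr
      exact hall ⟨r, hr⟩
    exact ⟨⟨{r}, countable_singleton r⟩, fun h => hr (h rfl)⟩
  have hub : ∀ F : Finset Om, ∃ b : Om, ∀ s ∈ F, s ≤ b := by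
    intro F
    refine ⟨⟨⋃ s ∈ F, s.1, F.countable_toSet.biUnion fun s _ => s.2⟩, ?_⟩
    intro s hs r hr
    exact mem_biUnion (show s ∈ (F : Set Om) from hs) hr
  have hl1 : l0 ∈ closure B1 := by
    rw [mem_closure_iff_nhds]
    intro t ht
    obtain ⟨U, hUt, hU, hl0U⟩ := mem_nhds_iff.1 ht
    -- approximate l0 by a fixed point with a zero on the left
    obtain ⟨l, hlU, hlfix, s, hs⟩ :
        ∃ l ∈ U, sm ρ g l = l ∧ ∃ s : Om, l.1 (Sum.inl s) = false := by
      have hU' := hU.mem_nhds hl0U
      have hU'' : (show Set ((W → Bool) × (∀ p : J × I, H p.2)) from U) ∈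
          𝓝 ((fun _ => true : W → Bool)) ×ˢ 𝓝 ((fun _ => 1 : ∀ p : J × I, H p.2)) := by
        rw [← nhds_prod_eq]
        exact hU'
      obtain ⟨t1, ht1, t2, ht2, ht12⟩ := Filter.mem_prod_iff.1 hU''
      rw [nhds_pi, Filter.mem_pi'] at ht1
      obtain ⟨F, u, hu, hsub⟩ := ht1
      obtain ⟨b, hb⟩ := hub (F.preimage Sum.inl (Sum.inl_injective.injOn))
      obtain ⟨s, hs⟩ := hnotall b
      let x : W → Bool := fun w => match w with
        | Sum.inl a => decide (a ≤ b)
        | Sum.inr _ => true
      refine ⟨(x, fun _ => 1), ht12 ⟨hsub ?_, mem_of_mem_nhds ht2⟩, ?_, s, ?_⟩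
      · intro w hw
        have hxw : x w = true := by
          rcases w with a | a
          · have : a ≤ b := hb a (by simpa using hw)
            simpa [x] using this
          · rfl
        show x w ∈ u w
        rw [hxw]
        exact mem_of_mem_nhds (hu w)
      · rw [sm_eq_iff ρ hsep g hg]
        rintro (⟨a, c⟩ | ⟨a, c⟩ | ⟨a, c⟩)
        · show (decide (a ≤ c) && (decide (c ≤ b) && !decide (a ≤ b))) = false
          by_cases h1 : a ≤ c
          · by_cases h2 : c ≤ b
            · simp [h1.trans h2]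
            · simp [h2]
          · simp [h1]
        · show (decide (a ≤ c) && (true && !true)) = false
          simp
        · show (!decide (a ≤ b) && !true) = false
          simp
      · show decide (s ≤ b) = false
        simpa using hs
    have hV : IsOpen (U ∩ {k : KH H | k.1 (Sum.inl s) = false}) := by
      refine hU.inter ?_
      have : Continuous fun k : KH H => k.1 (Sum.inl s) :=
        (continuous_apply _).comp continuous_fst
      exact (isOpen_discrete {false}).preimage this
    obtain ⟨a, haA, hafix, haU, has⟩ := hfix l hlfix _ hV ⟨hlU, hs⟩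
    exact ⟨a, hUt haU, haA, hafix, s, has⟩
  have hl2 : l0 ∈ closure B2 := by
    rw [mem_closure_iff_nhds]
    intro t ht
    obtain ⟨U, hUt, hU, hl0U⟩ := mem_nhds_iff.1 ht
    obtain ⟨l, hlU, hlfix, s, hs⟩ :
        ∃ l ∈ U, sm ρ g l = l ∧ ∃ s : Om, l.1 (Sum.inr s) = false := by
      have hU' := hU.mem_nhds hl0U
      have hU'' : (show Set ((W → Bool) × (∀ p : J × I, H p.2)) from U) ∈
          𝓝 ((fun _ => true : W → Bool)) ×ˢ 𝓝 ((fun _ => 1 : ∀ p : J × I, H p.2)) := by
        rw [← nhds_prod_eq]
        exact hU'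
      obtain ⟨t1, ht1, t2, ht2, ht12⟩ := Filter.mem_prod_iff.1 hU''
      rw [nhds_pi, Filter.mem_pi'] at ht1
      obtain ⟨F, u, hu, hsub⟩ := ht1
      obtain ⟨b, hb⟩ := hub (F.preimage Sum.inr (Sum.inr_injective.injOn))
      obtain ⟨s, hs⟩ := hnotall b
      let x : W → Bool := fun w => match w with
        | Sum.inl _ => true
        | Sum.inr a => decide (a ≤ b)
      refine ⟨(x, fun _ => 1), ht12 ⟨hsub ?_, mem_of_mem_nhds ht2⟩, ?_, s, ?_⟩
      · intro w hw
        have hxw : x w = true := by
          rcases w with a | a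
          · rfl
          · have : a ≤ b := hb a (by simpa using hw)
            simpa [x] using this
        show x w ∈ u w
        rw [hxw]
        exact mem_of_mem_nhds (hu w)
      · rw [sm_eq_iff ρ hsep g hg]
        rintro (⟨a, c⟩ | ⟨a, c⟩ | ⟨a, c⟩)
        · show (decide (a ≤ c) && (true && !true)) = false
          simp
        · show (decide (a ≤ c) && (decide (c ≤ b) && !decide (a ≤ b))) = false
          by_cases h1 : a ≤ c
          · by_cases h2 : c ≤ b
            · simp [h1.trans h2]
            · simp [h2]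
          · simp [h1]
        · show (!true && !decide (c ≤ b)) = false
          simp
      · show decide (s ≤ b) = false
        simpa using hs
    have hV : IsOpen (U ∩ {k : KH H | k.1 (Sum.inr s) = false}) := by
      refine hU.inter ?_
      have : Continuous fun k : KH H => k.1 (Sum.inr s) :=
        (continuous_apply _).comp continuous_fst
      exact (isOpen_discrete {false}).preimage this
    obtain ⟨a, haA, hafix, haU, has⟩ := hfix l hlfix _ hV ⟨hlU, hs⟩
    exact ⟨a, hUt haU, haA, hafix, s, has⟩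
  have hl12 : (l0, l0) ∈ closure (B1 ×ˢ B2) := by
    rw [closure_prod_eq]
    exact ⟨hl1, hl2⟩
  obtain ⟨c, _, D', hD'D, hD'c, hcD'⟩ := key φ hφ (B1 ×ˢ B2)
    (fun d hd => ⟨hcnt _ hd.1.1, hcnt _ hd.2.1⟩) l0 hl12
  have h1 : ∀ d : KH H × KH H, ∃ s : Om, d ∈ D' → d.1.1 (Sum.inl s) = false := by
    intro d
    by_cases hd : d ∈ D'
    · obtain ⟨s, hs⟩ := (hD'D hd).1.2.2
      exact ⟨s, fun _ => hs⟩
    · exact ⟨⟨∅, countable_empty⟩, fun h => absurd h hd⟩
  have h2 : ∀ d : KH H × KH H, ∃ s : Om, d ∈ D' → d.2.1 (Sum.inr s) = false := by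
    intro d
    by_cases hd : d ∈ D'
    · obtain ⟨s, hs⟩ := (hD'D hd).2.2.2
      exact ⟨s, fun _ => hs⟩
    · exact ⟨⟨∅, countable_empty⟩, fun h => absurd h hd⟩
  choose s1 hs1 using h1
  choose s2 hs2 using h2
  let a1 : Om := ⟨⋃ d ∈ D', (s1 d).1, hD'c.biUnion fun d _ => (s1 d).2⟩
  let a2 : Om := ⟨⋃ d ∈ D', (s2 d).1, hD'c.biUnion fun d _ => (s2 d).2⟩
  have ha1 : ∀ d ∈ D', s1 d ≤ a1 := fun d hd r hr => mem_biUnion hd hr
  have ha2 : ∀ d ∈ D', s2 d ≤ a2 := fun d hd r hr => mem_biUnion hd hr
  have hcc : (c, c) ∈ {d : KH H × KH H | d.1.1 (Sum.inl a1) = false ∧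
      d.2.1 (Sum.inr a2) = false ∧ sm ρ g d.1 = d.1} := by
    have hcl : IsClosed {d : KH H × KH H | d.1.1 (Sum.inl a1) = false ∧
        d.2.1 (Sum.inr a2) = false ∧ sm ρ g d.1 = d.1} := by
      refine IsClosed.inter (isClosed_eq ?_ continuous_const)
        (IsClosed.inter (isClosed_eq ?_ continuous_const) (isClosed_eq ?_ continuous_fst))
      · exact (continuous_apply _).comp (continuous_fst.comp continuous_fst)
      · exact (continuous_apply _).comp (continuous_fst.comp continuous_snd)
      · exact hsm.comp continuous_fst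
    refine closure_minimal ?_ hcl hcD'
    intro d hd
    have hdB := hD'D hd
    refine ⟨?_, ?_, hdB.1.2.1⟩
    · have hv := (sm_eq_iff ρ hsep g hg d.1).1 hdB.1.2.1 (Sum.inl (s1 d, a1))
      have hv' : (decide (s1 d ≤ a1) && (d.1.1 (Sum.inl a1) && !d.1.1 (Sum.inl (s1 d)))) = false :=
        hv
      rw [hs1 d hd] at hv'
      simpa [ha1 d hd] using hv'
    · have hv := (sm_eq_iff ρ hsep g hg d.2).1 hdB.2.2.1 (Sum.inr (Sum.inl (s2 d, a2)))
      have hv' : (decide (s2 d ≤ a2) && (d.2.1 (Sum.inr a2) && !d.2.1 (Sum.inr (s2 d)))) = false :=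
        hv
      rw [hs2 d hd] at hv'
      simpa [ha2 d hd] using hv'
  obtain ⟨hc1, hc2, hc3⟩ := hcc
  have hv := (sm_eq_iff ρ hsep g hg c).1 hc3 (Sum.inr (Sum.inr (a1, a2)))
  have hv' : (!c.1 (Sum.inl a1) && !c.1 (Sum.inr a2)) = false := hv
  have hc1' : c.1 (Sum.inl a1) = false := hc1
  have hc2' : c.1 (Sum.inr a2) = false := hc2
  rw [hc1', hc2'] at hv'
  simp at hv'

theorem faithful_sm (hsep : ∀ g, g ≠ 1 → ∃ i, ρ i g ≠ 1) (g h : G)
    (hgh : ∀ k : KH H, sm ρ g k = sm ρ h k) : g = h := by
  by_contra hne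
  obtain ⟨i, hi⟩ := hsep (h⁻¹ * g) (by
    intro h1
    exact hne (inv_mul_eq_one.1 h1).symm)
  let s0 : Om := ⟨∅, countable_empty⟩
  let k : KH H := (fun _ => false, fun _ => 1)
  have h1 : (sm ρ g k).2 (Sum.inr (Sum.inr (s0, s0)), i) =
      (sm ρ h k).2 (Sum.inr (Sum.inr (s0, s0)), i) := by
    rw [hgh k]
  have h2 : (if viol k.1 (Sum.inr (Sum.inr (s0, s0))) = true then ρ i g * 1 else 1) =
      (if viol k.1 (Sum.inr (Sum.inr (s0, s0))) = true then ρ i h * 1 else 1) := h1
  have hv : viol k.1 (Sum.inr (Sum.inr (s0, s0))) = true := rfl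
  rw [if_pos hv, if_pos hv, mul_one, mul_one] at h2
  apply hi
  rw [map_mul, map_inv, h2, inv_mul_cancel]

end

section quotients

variable {G : Type} [Group G] [TopologicalSpace G] [IsTopologicalGroup G] [CompactSpace G]
  [T2Space G]

/-- The closed normal subgroup of the two-sided periods of `f`. -/
def periods (f : C(G, ℝ)) : Subgroup G where
  carrier := {n | ∀ a b, f (a * n * b) = f (a * b)}
  mul_mem' := by
    intro m n hm hn a b
    have h1 := hm a (n * b)
    have h2 := hn a b
    rw [← mul_assoc] at h1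
    rw [← mul_assoc a m n, mul_assoc (a * m) n b, ← mul_assoc (a * m) n b, h1, ← mul_assoc, h2]
  one_mem' := by intro a b; simp
  inv_mem' := by
    intro n hn a b
    have h := hn (a * n⁻¹) b
    simpa using h.symm

instance (f : C(G, ℝ)) : (periods f).Normal := by
  refine ⟨fun n hn g a b => ?_⟩
  have h := hn (a * g) (g⁻¹ * b)
  simpa [mul_assoc] using h

/-- The translates of `f`, as a continuous map into a metric space. -/
noncomputable def trans (f : C(G, ℝ)) : C(G, C(G × G, ℝ)) :=
  ContinuousMap.curry ⟨fun p : G × (G × G) => f (p.2.1 * p.1 * p.2.2), by fun_prop⟩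

theorem trans_apply (f : C(G, ℝ)) (x a b : G) : trans f x (a, b) = f (a * x * b) := rfl

theorem trans_eq_iff (f : C(G, ℝ)) (x y : G) : trans f x = trans f y ↔ x⁻¹ * y ∈ periods f := by
  constructor
  · intro h a b
    have h1 := DFunLike.congr_fun h (a * x⁻¹, b)
    rw [trans_apply, trans_apply] at h1
    rw [← mul_assoc, ← h1]
    simp
  · intro h
    ext ⟨a, b⟩
    rw [trans_apply, trans_apply]
    have h1 := h (a * x) b
    rw [← h1]
    simp [mul_assoc]

/-- The induced map of the quotient. -/
noncomputable def qtrans (f : C(G, ℝ)) : G ⧸ periods f → C(G × G, ℝ) :=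
  Quotient.lift (trans f) (by
    intro x y h
    exact (trans_eq_iff f x y).2 (QuotientGroup.leftRel_apply.1 h))

theorem continuous_qtrans (f : C(G, ℝ)) : Continuous (qtrans f) :=
  (trans f).continuous.quotient_lift _

theorem injective_qtrans (f : C(G, ℝ)) : Function.Injective (qtrans f) := by
  intro p q
  induction p using QuotientGroup.induction_on with | H x =>
  induction q using QuotientGroup.induction_on with | H y =>
  intro h
  exact QuotientGroup.eq.2 ((trans_eq_iff f x y).1 h)

instance (f : C(G, ℝ)) : T2Space (G ⧸ periods f) :=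
  T2Space.of_injective_continuous (injective_qtrans f) (continuous_qtrans f)

instance (f : C(G, ℝ)) : TopologicalSpace.MetrizableSpace (G ⧸ periods f) :=
  ((continuous_qtrans f).isClosedEmbedding (injective_qtrans f)).isEmbedding.metrizableSpace

instance (f : C(G, ℝ)) : SecondCountableTopology (G ⧸ periods f) := by
  letI := TopologicalSpace.metrizableSpaceMetric (G ⧸ periods f)
  infer_instance

theorem separates (g : G) (hg : g ≠ 1) :
    ∃ f : C(G, ℝ), QuotientGroup.mk' (periods f) g ≠ 1 := by
  obtain ⟨f, hf0, hf1, -⟩ := exists_continuous_zero_one_of_isClosed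
    (isClosed_singleton (x := (1 : G))) (isClosed_singleton (x := g))
    (by rw [disjoint_singleton]; exact hg.symm)
  refine ⟨f, fun h => ?_⟩
  have h1 : g ∈ periods f := (QuotientGroup.eq_one_iff g).1 h
  have h2 := h1 1 1
  have h3 : f 1 = 0 := hf0 rfl
  have h4 : f g = 1 := hf1 rfl
  simp only [one_mul, mul_one] at h2
  rw [h3, h4] at h2
  exact one_ne_zero h2

end quotients

end Pool.Agent.Y559.VG
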