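import Mathlib
import Pool.Agent.Y559.VG.Main

set_option autoImplicit false

/-! The space `KH H` as a product of compact metrizable spaces. -/

namespace Pool.Agent.Y559.VG

open Set Topology
open Pool.Agent.Results.MP_42f98c_gt.AllMetrizableGroups (W J)

variable {I : Type}

/-- The factors. -/
def Fam (H : I → Type) : W ⊕ (J × I) → Type
  | Sum.inl _ => Bool
  | Sum.inr p => H p.2

variable (H : I → Type) [∀ i, TopologicalSpace (H i)]

/-- The topologies of the factors. -/
instance famTop : ∀ t, TopologicalSpace (Fam H t)
  | Sum.inl _ => inferInstanceAs (TopologicalSpace Bool)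
  | Sum.inr p => inferInstanceAs (TopologicalSpace (H p.2))

theorem famCompact [∀ i, CompactSpace (H i)] : ∀ t, CompactSpace (Fam H t)
  | Sum.inl _ => inferInstanceAs (CompactSpace Bool)
  | Sum.inr p => inferInstanceAs (CompactSpace (H p.2))

theorem famMetrizable [∀ i, TopologicalSpace.MetrizableSpace (H i)] :
    ∀ t, TopologicalSpace.MetrizableSpace (Fam H t)
  | Sum.inl _ => inferInstanceAs (TopologicalSpace.MetrizableSpace Bool)
  | Sum.inr p => inferInstanceAs (TopologicalSpace.MetrizableSpace (H p.2))

/-- The homeomorphism. -/
theorem famHomeo [∀ i, Group (H i)] [∀ i, IsTopologicalGroup (H i)] [∀ i, CompactSpace (H i)]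
    [∀ i, T2Space (H i)] : Nonempty (KH H ≃ₜ ∀ t, Fam H t) := by
  let e : KH H ≃ (∀ t, Fam H t) :=
    { toFun := fun k t => match t with
        | Sum.inl w => k.1 w
        | Sum.inr p => k.2 p
      invFun := fun x => (fun w => x (Sum.inl w), fun p => x (Sum.inr p))
      left_inv := fun k => rfl
      right_inv := fun x => by
        funext t
        rcases t with w | p <;> rfl }
  refine ⟨{ toEquiv := e, continuous_toFun := ?_, continuous_invFun := ?_ }⟩
  · refine continuous_pi fun t => ?_
    rcases t with w | p
    · exact (continuous_apply w).comp continuous_fst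
    · exact (continuous_apply p).comp continuous_snd
  · refine Continuous.prodMk (continuous_pi fun w => ?_) (continuous_pi fun p => ?_)
    · exact continuous_apply (Sum.inl w : W ⊕ (J × I))
    · exact continuous_apply (Sum.inr p : W ⊕ (J × I))

end Pool.Agent.Y559.VG
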